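import Pool.Agent.U41.PH.Stm

/-!
# Package CD of the project PH

Over the generic point of a prime divisor given by a polynomial without the variable `X 0`, the universal
form is smooth.
-/

set_option autoImplicit false

namespace Pool.Agent.U41.PH

open Pool.Agent.TH214.RM Pool.Agent.U41.OD MvPolynomial

namespace CD

/-! ### polynomials with integral coefficients -/

theorem dvd_pderiv {σ : Type} {f : MvPolynomial σ ℤ} {a : σ} (h : f ∣ pderiv a f) :
    pderiv a f = 0 := by
  by_contra hne
  have h1 := totalDegree_le_of_dvd_of_isDomain h hne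
  obtain ⟨m, hm, hm2⟩ : ∃ m ∈ (pderiv a f).support,
      (pderiv a f).totalDegree = m.sum fun _ e => e :=
    Finset.exists_mem_eq_sup _ (support_nonempty.2 hne) _
  have h2 : m + Finsupp.single a 1 ∈ f.support := by
    rw [mem_support_iff] at hm ⊢
    rw [coeff_pderiv] at hm
    exact left_ne_zero_of_mul hm
  have h3 := le_totalDegree h2
  have h4 : ((m + Finsupp.single a 1).sum fun _ e => e) = (m.sum fun _ e => e) + 1 := by
    rw [Finsupp.sum_add_index' (fun _ => rfl) (fun _ _ _ => rfl)]
    simp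
  omega

theorem deg_zero {σ : Type} {f : MvPolynomial σ ℤ} (h : ∀ a, pderiv a f = 0) :
    f.totalDegree = 0 := by
  rw [totalDegree_eq_zero_iff]
  intro m hm x
  by_contra hx
  have h1 : (m - Finsupp.single x 1) + Finsupp.single x 1 = m := by
    ext y
    by_cases hy : y = x
    · subst hy
      simp
      omega
    · simp [Finsupp.single_apply, Ne.symm hy]
  have h2 := coeff_pderiv f (i := x) (m - Finsupp.single x 1)
  rw [h x, coeff_zero, h1] at h2
  rw [mem_support_iff] at hm
  rcases mul_eq_zero.1 h2.symm with h3 | h3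
  · exact hm h3
  · omega

theorem pderiv_pderiv_zero {σ : Type} {f : MvPolynomial σ ℤ} {c : σ} (h : pderiv c f = 0) (a : σ) :
    pderiv c (pderiv a f) = 0 := by
  ext m
  have h1 := coeff_pderiv f (i := c) (m + Finsupp.single a 1)
  rw [h, coeff_zero] at h1
  rw [coeff_pderiv, coeff_pderiv, coeff_zero]
  rcases mul_eq_zero.1 h1.symm with h3 | h3
  · rw [add_right_comm, h3, zero_mul, zero_mul]
  · omega

/-! ### algebraic elements -/

theorem clear {A κ : Type} [CommRing A] [Field κ] (φ : A →+* κ)
    (hfrac : ∀ z : κ, ∃ f g, φ g ≠ 0 ∧ z * φ g = φ f) (p0 : Polynomial κ) :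
    ∃ (p : Polynomial A) (c : A), φ c ≠ 0 ∧ p.map φ = Polynomial.C (φ c) * p0 := by
  induction p0 using Polynomial.induction_on' with
  | add q r hq hr =>
    obtain ⟨p, c, hc, hp⟩ := hq
    obtain ⟨p', c', hc', hp'⟩ := hr
    refine ⟨Polynomial.C c' * p + Polynomial.C c * p', c * c', ?_, ?_⟩
    · rw [map_mul]
      exact mul_ne_zero hc hc'
    · rw [Polynomial.map_add, Polynomial.map_mul, Polynomial.map_mul, hp, hp', Polynomial.map_C,
        Polynomial.map_C, map_mul, Polynomial.C_mul]
      ring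
  | monomial n z =>
    obtain ⟨f, g, hg, hz⟩ := hfrac z
    refine ⟨Polynomial.monomial n f, g, hg, ?_⟩
    rw [Polynomial.map_monomial, Polynomial.C_mul_monomial, ← hz, mul_comm]

theorem algebraic {A κ L : Type} [CommRing A] [Field κ] [Field L] [Algebra κ L]
    [Algebra.IsAlgebraic κ L] (φ : A →+* κ)
    (hfrac : ∀ z : κ, ∃ f g, φ g ≠ 0 ∧ z * φ g = φ f) (z : L) :
    ∃ p : Polynomial A, p.map ((algebraMap κ L).comp φ) ≠ 0 ∧
      (p.map ((algebraMap κ L).comp φ)).eval z = 0 := by
  obtain ⟨p0, h0, hz⟩ := Algebra.IsAlgebraic.isAlgebraic (R := κ) z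
  obtain ⟨p, c, hc, hp⟩ := clear φ hfrac p0
  refine ⟨p, ?_, ?_⟩
  · rw [← Polynomial.map_map, hp, Ne, Polynomial.map_eq_zero]
    exact mul_ne_zero (by simpa using hc) h0
  · have h1 : (p0.map (algebraMap κ L)).eval z = 0 := by
      rw [Polynomial.eval_map_algebraMap]
      exact hz
    rw [← Polynomial.map_map, hp, Polynomial.map_mul, Polynomial.eval_mul, h1, mul_zero]

/-! ### the chain rule -/

section

variable {L σ : Type} [Field L] [Fintype σ]

theorem chain0 (D : Derivation ℤ L L) (y : σ → L) (P : MvPolynomial σ ℤ) :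
    D (aeval y P) = ∑ j, aeval y (pderiv j P) * D (y j) := by
  classical
  induction P using MvPolynomial.induction_on with
  | C a => simp
  | add p q hp hq => simp only [map_add, hp, hq, add_mul, Finset.sum_add_distrib]
  | mul_X p i ih =>
    simp only [map_mul, aeval_X, Derivation.leibniz, ih, smul_eq_mul, map_add, pderiv_X, add_mul,
      Finset.sum_add_distrib]
    congr 1
    · rw [Finset.sum_eq_single i]
      · simp
      · intro j _ hj
        simp [Pi.single_apply, Ne.symm hj]
      · simp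
    · rw [Finset.mul_sum]
      exact Finset.sum_congr rfl fun j _ => by ring

/-- the value of a monomial -/
noncomputable def mon (y : σ → L) (s : σ →₀ ℕ) : L := aeval y (monomial s (1 : ℤ))

/-- the value of a partial derivative of a monomial -/
noncomputable def dm (y : σ → L) (s : σ →₀ ℕ) (j : σ) : L := aeval y (pderiv j (monomial s (1 : ℤ)))

theorem ae_mon {κ : Type} [Field κ] [Algebra κ L] (y : σ → L) (s : σ →₀ ℕ) (c : κ) :
    aeval y (monomial s c) = algebraMap κ L c * mon y s := by
  simp [mon, aeval_monomial]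

theorem ae_dm {κ : Type} [Field κ] [Algebra κ L] (y : σ → L) (s : σ →₀ ℕ) (c : κ) (j : σ) :
    aeval y (pderiv j (monomial s c)) = algebraMap κ L c * dm y s j := by
  simp [dm, aeval_monomial, pderiv_monomial]
  ring

theorem scal {κ : Type} [Field κ] [Algebra κ L] {P : MvPolynomial σ κ} {m : ℕ}
    (hP : P.IsHomogeneous m) (t : L) (y : σ → L) :
    aeval (fun j => t * y j) P = t ^ m * aeval y P := by
  rw [aeval_def, aeval_def, eval₂_eq', eval₂_eq', Finset.mul_sum]
  refine Finset.sum_congr rfl fun s hs => ?_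
  have h1 : ∑ j, s j = m := by
    have := hP (mem_support_iff.1 hs)
    rw [← this, Finsupp.weight_apply, Finsupp.sum_fintype _ _ (by simp)]
    simp
  simp_rw [mul_pow, Finset.prod_mul_distrib, Finset.prod_pow_eq_pow_sum, h1]
  ring

end

/-- the exponents of all monomials -/
noncomputable def al {n d k : ℕ} (ex : Fin k ≃ Idx n d) : Fin (k + 1) → (Fin (n + 2) →₀ ℕ) :=
  Fin.cons (Finsupp.single 0 d) fun i => (ex i).1

theorem full_eq {n d k : ℕ} (ex : Fin k ≃ Idx n d) {κ : Type} [Field κ]
    (φ : MvPolynomial (Fin (k + 1)) ℤ →+* κ) :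
    map φ (full ex) = ∑ a : Fin (k + 1), monomial (al ex a) (φ (X a)) := by
  rw [full, member, form, map_add, map_sum, Fin.sum_univ_succ]
  refine (add_comm _ _).trans ?_
  congr 1
  · rw [map_mul, map_C, map_pow, map_X, C_mul_X_pow_eq_monomial]
    rfl
  · exact Finset.sum_congr rfl fun i _ => by rw [map_monomial]; rfl

theorem al_deg {n d k : ℕ} (ex : Fin k ≃ Idx n d) (a : Fin (k + 1)) : (al ex a).degree = d := by
  refine Fin.cases ?_ (fun i => ?_) a
  · simp [al]
  · simp only [al, Fin.cons_succ]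
    exact (ex i).2.1

/-- The contradiction. -/
theorem core {n d k : ℕ} (ex : Fin k ≃ Idx n d) (hd : 2 ≤ d) (h' : MvPolynomial (Fin (k + 1)) ℤ)
    (hh0 : pderiv 0 h' = 0) (hh1 : ¬ ∀ a, pderiv a h' = 0)
    {L : Type} [Field L] [CharZero L] (ψ : MvPolynomial (Fin (k + 1)) ℤ →+* L)
    (hψ : ∀ f, ψ f = 0 → h' ∣ f)
    (hD : ∀ u : Fin (k + 1) → L, ∑ a, ψ (pderiv a h') * u a = 0 →
      ∃ D : Derivation ℤ L L, ∀ f, D (ψ f) = ∑ a, ψ (pderiv a f) * u a)
    (y : Fin (n + 2) → L) (i : Fin (n + 2)) (hi : y i = 1)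
    (hF : ∑ a, ψ (X a) * mon y (al ex a) = 0)
    (hdF : ∀ j, ∑ a, ψ (X a) * dm y (al ex a) j = 0) : False := by
  classical
  have hDX : ∀ (u : Fin (k + 1) → L) (D : Derivation ℤ L L),
      (∀ f, D (ψ f) = ∑ a, ψ (pderiv a f) * u a) → ∀ a, D (ψ (X a)) = u a := by
    intro u D h a
    rw [h, Finset.sum_eq_single a]
    · simp
    · intro b _ hb
      rw [pderiv_X_of_ne (Ne.symm hb), map_zero, zero_mul]
    · simp
  have key : ∀ u : Fin (k + 1) → L, ∑ a, ψ (pderiv a h') * u a = 0 →
      ∑ a, u a * mon y (al ex a) = 0 := by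
    intro u hu
    obtain ⟨D, hDD⟩ := hD u hu
    have h1 : D (∑ a, ψ (X a) * mon y (al ex a)) = 0 := by rw [hF, map_zero]
    rw [map_sum] at h1
    simp only [Derivation.leibniz, smul_eq_mul, hDX u D hDD] at h1
    rw [Finset.sum_add_distrib] at h1
    have h2 : ∑ a, ψ (X a) * D (mon y (al ex a)) = 0 := by
      simp only [mon, chain0, Finset.mul_sum]
      rw [Finset.sum_comm]
      refine Finset.sum_eq_zero fun j _ => ?_
      have h3 := hdF j
      simp only [dm] at h3
      simp only [← mul_assoc]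
      rw [← Finset.sum_mul, h3, zero_mul]
    rw [h2, zero_add] at h1
    rw [← h1]
    exact Finset.sum_congr rfl fun a _ => mul_comm _ _
  -- (1)
  have hy0 : y 0 = 0 := by
    have h1 := key (Pi.single 0 1) (by
      rw [Finset.sum_eq_single 0]
      · rw [hh0, map_zero, zero_mul]
      · intro b _ hb
        rw [Pi.single_eq_of_ne hb, mul_zero]
      · simp)
    rw [Finset.sum_eq_single 0] at h1
    · rw [Pi.single_eq_same, one_mul] at h1
      simp only [mon, al, Fin.cons_zero, aeval_monomial] at h1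
      simpa using (by simpa using h1 : y 0 = 0 ∧ d ≠ 0).1
    · intro b _ hb
      rw [Pi.single_eq_of_ne hb, zero_mul]
    · simp
  have hi0 : i ≠ 0 := by
    rintro rfl
    rw [hy0] at hi
    exact zero_ne_one hi
  -- (2)
  have key2 : ∀ a b : Fin (k + 1), ψ (pderiv b h') * mon y (al ex a) =
      ψ (pderiv a h') * mon y (al ex b) := by
    intro a b
    have h1 := key (fun c => ψ (pderiv b h') * (if c = a then 1 else 0) -
      ψ (pderiv a h') * (if c = b then 1 else 0)) (by
        simp only [mul_sub, Finset.sum_sub_distrib, mul_ite, mul_one, mul_zero,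
          Finset.sum_ite_eq', Finset.mem_univ, if_true]
        ring)
    simp only [sub_mul, Finset.sum_sub_distrib, mul_ite, mul_one, mul_zero, ite_mul, zero_mul,
      Finset.sum_ite_eq', Finset.mem_univ, if_true] at h1
    linear_combination h1
  -- the indices
  have hidx : ∀ l : Fin (n + 2), ∃ a : Fin (k + 1),
      al ex a = Finsupp.single l 1 + Finsupp.single i (d - 1) := by
    intro l
    have h1 : (Finsupp.single l 1 + Finsupp.single i (d - 1) : Fin (n + 2) →₀ ℕ).degree = d := by
      rw [map_add, Finsupp.degree_single, Finsupp.degree_single]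
      omega
    have h2 : (Finsupp.single l 1 + Finsupp.single i (d - 1) : Fin (n + 2) →₀ ℕ) ≠
        Finsupp.single 0 d := by
      intro h3
      have h4 := DFunLike.congr_fun h3 i
      rw [Finsupp.add_apply, Finsupp.single_eq_same, Finsupp.single_apply (a := (0 : Fin (n + 2))),
        if_neg (Ne.symm hi0)] at h4
      omega
    refine ⟨(ex.symm ⟨_, h1, h2⟩).succ, ?_⟩
    simp [al]
  choose A hA using hidx
  have hmonA : ∀ l, mon y (al ex (A l)) = y l := by
    intro l
    rw [hA l, mon, aeval_monomial, Finsupp.prod_add_index' (by simp) (by intro a b c; exact pow_add _ _ _),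
      Finsupp.prod_single_index (by simp), Finsupp.prod_single_index (by simp), hi, one_pow, pow_one,
      mul_one, map_one, one_mul]
  have hb1 : ∀ a, ψ (pderiv a h') = ψ (pderiv (A i) h') * mon y (al ex a) := by
    intro a
    have h1 := key2 a (A i)
    rw [hmonA i, hi, mul_one] at h1
    exact h1.symm
  have hb0 : ψ (pderiv (A i) h') ≠ 0 := by
    intro h0
    apply hh1
    intro a
    apply dvd_pderiv
    apply hψ
    rw [hb1 a, h0, zero_mul]
  have hc0 : pderiv (A 0) h' = 0 := by
    apply dvd_pderiv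
    apply hψ
    rw [hb1 (A 0), hmonA 0, hy0, mul_zero]
  -- the derivation
  obtain ⟨D, hDD⟩ := hD (Pi.single (A 0) 1) (by
    rw [Finset.sum_eq_single (A 0)]
    · rw [hc0, map_zero, zero_mul]
    · intro b _ hb
      rw [Pi.single_eq_of_ne hb, mul_zero]
    · simp)
  have hD1 : ∀ f, D (ψ f) = ψ (pderiv (A 0) f) := by
    intro f
    rw [hDD f, Finset.sum_eq_single (A 0)]
    · rw [Pi.single_eq_same, mul_one]
    · intro b _ hb
      rw [Pi.single_eq_of_ne hb, mul_zero]
    · simp
  have hD2 : ∀ a, D (ψ (pderiv a h')) = 0 := by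
    intro a
    rw [hD1, pderiv_pderiv_zero hc0 a, map_zero]
  have hDy : ∀ l, D (y l) = 0 := by
    intro l
    have h1 := hb1 (A l)
    rw [hmonA l] at h1
    have h2 := congrArg D h1
    rw [hD2, Derivation.leibniz, hD2, smul_zero, add_zero, smul_eq_mul] at h2
    rcases mul_eq_zero.1 h2.symm with h3 | h3
    · exact absurd h3 hb0
    · exact h3
  have h1 := congrArg D (hdF 0)
  rw [map_zero, map_sum] at h1
  simp only [Derivation.leibniz, smul_eq_mul] at h1
  have h2 : ∀ a, D (dm y (al ex a) 0) = 0 := by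
    intro a
    rw [dm, chain0]
    exact Finset.sum_eq_zero fun j _ => by rw [hDy, mul_zero]
  simp only [h2, mul_zero, zero_add, hDX _ D hDD] at h1
  rw [Finset.sum_eq_single (A 0)] at h1
  · rw [Pi.single_eq_same, mul_one, hA 0, dm, pderiv_monomial] at h1
    have h3 : (Finsupp.single 0 1 + Finsupp.single i (d - 1) - Finsupp.single 0 1 :
        Fin (n + 2) →₀ ℕ) = Finsupp.single i (d - 1) := by
      ext l
      simp
    have h4 : (Finsupp.single 0 1 + Finsupp.single i (d - 1) : Fin (n + 2) →₀ ℕ) 0 = 1 := by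
      rw [Finsupp.add_apply, Finsupp.single_eq_same, Finsupp.single_apply, if_neg hi0, add_zero]
    rw [h3, h4, aeval_monomial, Finsupp.prod_single_index (by simp), hi, one_pow, mul_one] at h1
    simp at h1
  · intro b _ hb
    rw [Pi.single_eq_of_ne hb, mul_zero]
  · simp

end CD

open CD in
/-- Package CD. -/
theorem CD_ok (hDE : S_DE) (hPT : S_PT) : S_CD := by
  classical
  intro n d k ex hd h hirr hdeg κ _ φ hker hfrac i0
  by_contra hcon
  obtain ⟨L, _, _, hLalg, y0, hy, hyi⟩ := hPT _ _ hcon
  have hren : Function.Injective (rename (R := ℤ) (Fin.succ : Fin k → Fin (k + 1))) :=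
    rename_injective _ (Fin.succ_injective k)
  obtain ⟨h', hh'⟩ : ∃ h', h' = rename Fin.succ h := ⟨_, rfl⟩
  rw [← hh'] at hker
  -- the characteristic
  have hchar : CharZero κ := by
    refine charZero_of_inj_zero fun N hN => ?_
    by_contra hN0
    have h1 : φ (C (N : ℤ)) = 0 := by
      have : (C (N : ℤ) : MvPolynomial (Fin (k + 1)) ℤ) = (N : MvPolynomial (Fin (k + 1)) ℤ) := by
        simp
      rw [this, map_natCast, hN]
    rw [hker, dvd_C_iff_exists (by exact_mod_cast hN0)] at h1
    obtain ⟨b, -, hb⟩ := h1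
    rw [hh'] at hb
    have h2 : h = C b := hren (by rw [hb, rename_C])
    rw [h2, totalDegree_C] at hdeg
    omega
  have hcharL : CharZero L := charZero_of_injective_algebraMap (algebraMap κ L).injective
  have hh0 : pderiv 0 h' = 0 := by
    rw [hh']
    apply pderiv_eq_zero_of_notMem_vars
    intro h1
    have h2 := vars_rename Fin.succ h h1
    rw [Finset.mem_image] at h2
    obtain ⟨a, -, ha⟩ := h2
    exact Fin.succ_ne_zero a ha
  have hh1 : ¬ ∀ a, pderiv a h' = 0 := by
    intro h1
    have h2 : h.totalDegree = 0 := deg_zero fun a => by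
      have h3 := h1 a.succ
      rw [hh', pderiv_rename (Fin.succ_injective k)] at h3
      exact hren (by rw [h3, map_zero])
    omega
  obtain ⟨ψ, hψdef⟩ : ∃ ψ : MvPolynomial (Fin (k + 1)) ℤ →+* L, ψ = (algebraMap κ L).comp φ := ⟨_, rfl⟩
  have hψ : ∀ f, ψ f = 0 ↔ h' ∣ f := by
    intro f
    rw [← hker f, hψdef, RingHom.comp_apply, map_eq_zero]
  have hψX : ∀ a, ψ (X a) = algebraMap κ L (φ (X a)) := fun a => by rw [hψdef]; rfl
  have hD : ∀ u : Fin (k + 1) → L, ∑ a, ψ (pderiv a h') * u a = 0 →
      ∃ D : Derivation ℤ L L, ∀ f, D (ψ f) = ∑ a, ψ (pderiv a f) * u a := by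
    intro u hu
    refine hDE ψ u ?_ ?_
    · intro f hf
      obtain ⟨q, rfl⟩ := (hψ f).1 hf
      have h0 : ψ h' = 0 := (hψ h').2 dvd_rfl
      have h2 : ∀ a, ψ (pderiv a (h' * q)) * u a = ψ q * (ψ (pderiv a h') * u a) := by
        intro a
        rw [pderiv_mul, map_add, map_mul, map_mul, h0]
        ring
      simp only [h2]
      rw [← Finset.mul_sum, hu, mul_zero]
    · intro z
      rw [hψdef]
      exact algebraic φ hfrac z
  -- the polynomial
  have hhom : (map φ (full ex)).IsHomogeneous d := by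
    rw [full_eq]
    exact IsHomogeneous.sum _ _ _ fun a _ => isHomogeneous_monomial _ (al_deg ex a)
  rw [aeval_X] at hyi
  set y : Fin (n + 2) → L := fun j => (y0 i0)⁻¹ * y0 j with hydef
  have hyi1 : y i0 = 1 := by
    rw [hydef]
    exact inv_mul_cancel₀ hyi
  have hyd : ∀ j, aeval y (pderiv j (map φ (full ex))) = 0 := by
    intro j
    rw [hydef, scal hhom.pderiv, hy _ (Ideal.subset_span ⟨j, rfl⟩), mul_zero]
  have hyF : aeval y (map φ (full ex)) = 0 := by
    have h1 := congrArg (aeval y) hhom.sum_X_mul_pderiv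
    rw [map_sum] at h1
    simp only [map_mul, hyd, mul_zero, Finset.sum_const_zero, nsmul_eq_mul, map_natCast] at h1
    rcases mul_eq_zero.1 h1.symm with h2 | h2
    · exfalso
      have : d = 0 := by exact_mod_cast h2
      omega
    · exact h2
  rw [full_eq, map_sum] at hyF
  simp only [ae_mon, ← hψX] at hyF
  refine core ex hd h' hh0 hh1 ψ (fun f hf => (hψ f).1 hf) hD y i0 hyi1 hyF fun j => ?_
  have h1 := hyd j
  rw [full_eq, map_sum, map_sum] at h1
  simp only [ae_dm, ← hψX] at h1
  exact h1

end Pool.Agent.U41.PH
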